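import Mathlib
import Pool.Agent.helper7.OC.Defs

set_option autoImplicit false
open PowerSeries

namespace Pool.Agent.helper79.PO
open Pool.Agent.helper12.PE (DD)
open Pool.Agent.helper7.OC (TT coeff_TT ev ev_eq)

/-! Shared definitions for the algebra half (Nicolas-Serre order) of the odd values of `p(n)`. -/

/-- `n3 k = ∑ β_(2i+1)(k) 2^i`. -/
def n3 (k : ℕ) : ℕ := ev (k / 2)

/-- `n5 k = ∑ β_(2i+2)(k) 2^i`. -/
def n5 (k : ℕ) : ℕ := ev (k / 4)

/-- The Nicolas-Serre height. -/
def ht (k : ℕ) : ℕ := n3 k + n5 k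

/-- `spr a = ∑ β_i(a) 4^i`. -/
def spr (a : ℕ) : ℕ := if h : a = 0 then 0 else a % 2 + 4 * spr (a / 2)
termination_by a
decreasing_by omega

/-- The odd number with `n3 = a`, `n5 = b`. -/
def code (a b : ℕ) : ℕ := 1 + 2 * spr a + 4 * spr b

/-- The span of the odd powers `Δ ^ j`, `j ≤ N`, with `(ht j, n5 j) < (H, B)` lexicographically. -/
noncomputable def Low (N H B : ℕ) : Submodule (ZMod 2) (ZMod 2)⟦X⟧ :=
  Submodule.span (ZMod 2) {f | ∃ j : ℕ, j % 2 = 1 ∧ j ≤ N ∧ (ht j < H ∨ (ht j = H ∧ n5 j < B)) ∧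
    f = DD ^ j}

@[simp] lemma ev_zero : ev 0 = 0 := by unfold ev; simp

lemma ev_rec (q r : ℕ) (hr : r < 4) : ev (4 * q + r) = r % 2 + 2 * ev q := by
  rw [ev_eq]
  have h1 : (4 * q + r) / 4 = q := by omega
  rw [h1]
  omega

/-- Binary recursion for `n3`. -/
lemma n3_rec (q r : ℕ) (hr : r < 4) : n3 (4 * q + r) = r / 2 + 2 * n3 q := by
  unfold n3
  have h1 : (4 * q + r) / 2 = 4 * (q / 2) + (2 * (q % 2) + r / 2) := by omega
  rw [h1, ev_rec _ _ (by omega)]
  omega

/-- Binary recursion for `n5`. -/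
lemma n5_rec (q r : ℕ) (hr : r < 4) : n5 (4 * q + r) = q % 2 + 2 * n5 q := by
  unfold n5
  rw [show (4 * q + r) / 4 = q by omega]
  exact ev_eq q

@[simp] lemma spr_zero : spr 0 = 0 := by unfold spr; simp

lemma spr_eq (a : ℕ) : spr a = a % 2 + 4 * spr (a / 2) := by
  by_cases h : a = 0
  · subst h; simp
  · rw [spr, dif_neg h]

lemma ev_spr_add (a : ℕ) : ∀ b : ℕ, ev (spr a + 2 * spr b) = a := by
  induction a using Nat.strong_induction_on with
  | _ a ih =>
    intro b
    by_cases ha : a = 0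
    · subst ha
      rw [spr_zero, zero_add]
      induction b using Nat.strong_induction_on with
      | _ b ihb =>
        by_cases hb : b = 0
        · subst hb; simp
        · rw [spr_eq b, show 2 * (b % 2 + 4 * spr (b / 2)) = 4 * (2 * spr (b / 2)) + 2 * (b % 2) by
            ring, ev_rec _ _ (by omega), ihb (b / 2) (by omega)]
          omega
    · rw [spr_eq a, spr_eq b, show a % 2 + 4 * spr (a / 2) + 2 * (b % 2 + 4 * spr (b / 2)) =
        4 * (spr (a / 2) + 2 * spr (b / 2)) + (a % 2 + 2 * (b % 2)) by ring,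
        ev_rec _ _ (by omega), ih (a / 2) (by omega)]
      omega

lemma n3_code (a b : ℕ) : n3 (code a b) = a := by
  unfold n3 code
  rw [show (1 + 2 * spr a + 4 * spr b) / 2 = spr a + 2 * spr b by omega, ev_spr_add]

lemma spr_mod_two (a : ℕ) : spr a % 2 = a % 2 := by
  rw [spr_eq]; omega

lemma spr_lt_aux (a : ℕ) : spr a % 4 = a % 2 := by
  rw [spr_eq]; omega

lemma spr_div (a : ℕ) : spr a / 4 = spr (a / 2) := by
  have := spr_eq a
  omega

lemma n5_code (a b : ℕ) : n5 (code a b) = b := by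
  unfold n5 code
  have h1 := spr_eq a
  have h2 := spr_eq b
  have : (1 + 2 * spr a + 4 * spr b) / 4 = spr b + 2 * spr (a / 2) := by omega
  rw [this, ev_spr_add]

lemma ht_code (a b : ℕ) : ht (code a b) = a + b := by
  rw [ht, n3_code, n5_code]

lemma code_mod_two (a b : ℕ) : code a b % 2 = 1 := by
  unfold code; omega

/-- `m = spr (ev m) + 2 * spr (ev (m / 2))`. -/
lemma spr_ev (m : ℕ) : spr (ev m) + 2 * spr (ev (m / 2)) = m := by
  induction m using Nat.strong_induction_on with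
  | _ m ih =>
    by_cases hm : m = 0
    · subst hm; simp
    · have h1 := ih (m / 4) (by omega)
      have h2 := ev_eq m
      have h3 := ev_eq (m / 2)
      have h4 : m / 2 / 4 = m / 4 / 2 := by omega
      rw [h4] at h3
      rw [spr_eq (ev m), spr_eq (ev (m / 2))]
      have h5 : ev m % 2 = m % 2 := by omega
      have h6 : ev m / 2 = ev (m / 4) := by omega
      have h7 : ev (m / 2) % 2 = m / 2 % 2 := by omega
      have h8 : ev (m / 2) / 2 = ev (m / 4 / 2) := by omega
      rw [h5, h6, h7, h8]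
      omega

lemma code_n3_n5 (k : ℕ) (hk : k % 2 = 1) : code (n3 k) (n5 k) = k := by
  have h := spr_ev (k / 2)
  unfold code n3 n5
  rw [show k / 2 / 2 = k / 4 by omega] at h
  omega

/-- The code determines an odd number. -/
lemma eq_of_n3_n5 {k l : ℕ} (hk : k % 2 = 1) (hl : l % 2 = 1) (h3 : n3 k = n3 l)
    (h5 : n5 k = n5 l) : k = l := by
  rw [← code_n3_n5 k hk, ← code_n3_n5 l hl, h3, h5]

end Pool.Agent.helper79.PO
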