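import Mathlib
import Pool.Agent.helper79.PO.Defs

set_option autoImplicit false

namespace Pool.Agent.helper79.PO
open Pool.Agent.helper7.OC (ev ev_eq)

lemma n3_odd (s : ℕ) : n3 (2 * s + 1) = n3 (2 * s) := by
  unfold n3
  congr 1; omega

lemma n5_odd (s : ℕ) : n5 (2 * s + 1) = n5 (2 * s) := by
  unfold n5
  congr 1; omega

lemma n3_eq (k : ℕ) : n3 k = k % 4 / 2 + 2 * n3 (k / 4) := by
  have h := n3_rec (k / 4) (k % 4) (Nat.mod_lt _ (by norm_num))
  rwa [show 4 * (k / 4) + k % 4 = k by omega] at h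

lemma n5_eq (k : ℕ) : n5 k = k / 4 % 2 + 2 * n5 (k / 4) := by
  have h := n5_rec (k / 4) (k % 4) (Nat.mod_lt _ (by norm_num))
  rwa [show 4 * (k / 4) + k % 4 = k by omega] at h

lemma base_odd (k : ℕ) : (k / 2 % 2 = 0 → n3 (k + 2) = n3 k + 1 ∧ n5 (k + 2) = n5 k) ∧
    (k / 2 % 2 = 1 → ht (k + 2) ≤ ht k) := by
  induction k using Nat.strong_induction_on with
  | _ k ih =>
    have e1 := n3_eq k
    have e2 := n5_eq k
    have e3 := n3_eq (k + 2)
    have e4 := n5_eq (k + 2)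
    refine ⟨fun h => ?_, fun h => ?_⟩
    · have h1 : (k + 2) / 4 = k / 4 := by omega
      rw [h1] at e3 e4
      have h2 : (k + 2) % 4 / 2 = k % 4 / 2 + 1 := by omega
      rw [h2] at e3
      exact ⟨by omega, by omega⟩
    · have h1 : (k + 2) / 4 = k / 4 + 1 := by omega
      rw [h1] at e3 e4
      unfold ht
      rcases Nat.even_or_odd' (k / 4) with ⟨s, hs | hs⟩
      · rw [hs] at e1 e2 e3 e4
        rw [n3_odd] at e3
        rw [n5_odd] at e4
        omega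
      · rw [hs] at e1 e2 e3 e4
        rw [n3_odd] at e1
        rw [n5_odd] at e2
        have h3 := ih (2 * s) (by omega)
        rw [show 2 * s + 1 + 1 = 2 * s + 2 by ring] at e3 e4
        rcases Nat.mod_two_eq_zero_or_one (2 * s / 2) with h4 | h4
        · obtain ⟨h5, h6⟩ := h3.1 h4
          omega
        · have h5 := h3.2 h4
          unfold ht at h5
          omega

lemma n3_mod_two (k : ℕ) : n3 k % 2 = k / 2 % 2 := by
  have := n3_eq k; omega

lemma n5_mod_two (k : ℕ) : n5 k % 2 = k / 4 % 2 := by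
  have := n5_eq k; omega

lemma base_even (k : ℕ) : (n5 k % 2 = 0 → n3 (k + 4) = n3 k ∧ n5 (k + 4) = n5 k + 1) ∧
    (n5 k % 2 = 1 → (ht (k + 4) = ht k + 1 ∧ n5 (k + 4) + 1 = n5 k) ∨ ht (k + 4) + 1 ≤ ht k) := by
  have e0 := n5_mod_two k
  have e1 := n3_eq k
  have e2 := n5_eq k
  have e3 := n3_eq (k + 4)
  have e4 := n5_eq (k + 4)
  have h1 : (k + 4) / 4 = k / 4 + 1 := by omega
  have h2 : (k + 4) % 4 = k % 4 := by omega
  rw [h1, h2] at e3
  rw [h1] at e4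
  refine ⟨fun h => ?_, fun h => ?_⟩
  · obtain ⟨s, hs⟩ : ∃ s, k / 4 = 2 * s := ⟨k / 4 / 2, by omega⟩
    rw [hs] at e1 e2 e3 e4
    rw [n3_odd] at e3
    rw [n5_odd] at e4
    omega
  · obtain ⟨s, hs⟩ : ∃ s, k / 4 = 2 * s + 1 := ⟨k / 4 / 2, by omega⟩
    rw [hs] at e1 e2 e3 e4
    rw [n3_odd] at e1
    rw [n5_odd] at e2
    rw [show 2 * s + 1 + 1 = 2 * s + 2 by ring] at e3 e4
    have h3 := base_odd (2 * s)
    unfold ht
    rcases Nat.mod_two_eq_zero_or_one (2 * s / 2) with h4 | h4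
    · obtain ⟨h5, h6⟩ := h3.1 h4
      omega
    · have h5 := h3.2 h4
      unfold ht at h5
      omega

lemma half_pow (a b i : ℕ) (hb : b < 2) : (b + 2 * a) / 2 ^ (i + 1) % 2 = a / 2 ^ i % 2 := by
  rw [pow_succ', ← Nat.div_div_eq_div_mul]
  congr 2
  omega

/-- Adding the bit `2 i + 1` (weight `2 ^ i`, of type 3) without carry. -/
lemma add_odd0 (i k : ℕ) (h : n3 k / 2 ^ i % 2 = 0) :
    n3 (k + 2 * 4 ^ i) = n3 k + 2 ^ i ∧ n5 (k + 2 * 4 ^ i) = n5 k := by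
  induction i generalizing k with
  | zero =>
    rw [pow_zero, Nat.div_one, n3_mod_two] at h
    simpa using (base_odd k).1 h
  | succ i ih =>
    have e1 := n3_eq k
    have e2 := n5_eq k
    have e3 := n3_eq (k + 2 * 4 ^ (i + 1))
    have e4 := n5_eq (k + 2 * 4 ^ (i + 1))
    have hp : 4 ^ (i + 1) = 4 * 4 ^ i := pow_succ' 4 i
    have hp2 : 2 ^ (i + 1) = 2 * 2 ^ i := pow_succ' 2 i
    have h1 : (k + 2 * 4 ^ (i + 1)) / 4 = k / 4 + 2 * 4 ^ i := by omega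
    have h2 : (k + 2 * 4 ^ (i + 1)) % 4 = k % 4 := by omega
    rw [h1, h2] at e3
    rw [h1] at e4
    rw [e1, half_pow _ _ _ (by omega)] at h
    obtain ⟨h3, h4⟩ := ih (k / 4) h
    rw [h3] at e3
    rw [h4] at e4
    omega

/-- Adding the bit `2 i + 1` with a carry does not increase the height. -/
lemma add_odd1 (i k : ℕ) (h : n3 k / 2 ^ i % 2 = 1) : ht (k + 2 * 4 ^ i) ≤ ht k := by
  induction i generalizing k with
  | zero =>
    rw [pow_zero, Nat.div_one, n3_mod_two] at h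
    simpa using (base_odd k).2 h
  | succ i ih =>
    have e1 := n3_eq k
    have e2 := n5_eq k
    have e3 := n3_eq (k + 2 * 4 ^ (i + 1))
    have e4 := n5_eq (k + 2 * 4 ^ (i + 1))
    have hp : 4 ^ (i + 1) = 4 * 4 ^ i := pow_succ' 4 i
    have h1 : (k + 2 * 4 ^ (i + 1)) / 4 = k / 4 + 2 * 4 ^ i := by omega
    have h2 : (k + 2 * 4 ^ (i + 1)) % 4 = k % 4 := by omega
    rw [h1, h2] at e3
    rw [h1] at e4
    rw [e1, half_pow _ _ _ (by omega)] at h
    have h3 := ih (k / 4) h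
    unfold ht at h3 ⊢
    omega

/-- Adding the bit `2 i + 2` (weight `2 ^ i`, of type 5) without carry. -/
lemma add_even0 (i k : ℕ) (h : n5 k / 2 ^ i % 2 = 0) :
    n3 (k + 4 * 4 ^ i) = n3 k ∧ n5 (k + 4 * 4 ^ i) = n5 k + 2 ^ i := by
  induction i generalizing k with
  | zero =>
    rw [pow_zero, Nat.div_one] at h
    simpa using (base_even k).1 h
  | succ i ih =>
    have e1 := n3_eq k
    have e2 := n5_eq k
    have e3 := n3_eq (k + 4 * 4 ^ (i + 1))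
    have e4 := n5_eq (k + 4 * 4 ^ (i + 1))
    have hp : 4 ^ (i + 1) = 4 * 4 ^ i := pow_succ' 4 i
    have hp2 : 2 ^ (i + 1) = 2 * 2 ^ i := pow_succ' 2 i
    have h1 : (k + 4 * 4 ^ (i + 1)) / 4 = k / 4 + 4 * 4 ^ i := by omega
    have h2 : (k + 4 * 4 ^ (i + 1)) % 4 = k % 4 := by omega
    rw [h1, h2] at e3
    rw [h1] at e4
    rw [e2, half_pow _ _ _ (by omega)] at h
    obtain ⟨h3, h4⟩ := ih (k / 4) h
    rw [h3] at e3
    rw [h4] at e4
    omega

/-- Adding the bit `2 i + 2` with a carry. -/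
lemma add_even1 (i k : ℕ) (h : n5 k / 2 ^ i % 2 = 1) :
    (ht (k + 4 * 4 ^ i) = ht k + 2 ^ i ∧ n5 (k + 4 * 4 ^ i) + 2 ^ i = n5 k) ∨
      ht (k + 4 * 4 ^ i) + 2 ^ i ≤ ht k := by
  induction i generalizing k with
  | zero =>
    rw [pow_zero, Nat.div_one] at h
    simpa using (base_even k).2 h
  | succ i ih =>
    have e1 := n3_eq k
    have e2 := n5_eq k
    have e3 := n3_eq (k + 4 * 4 ^ (i + 1))
    have e4 := n5_eq (k + 4 * 4 ^ (i + 1))
    have hp : 4 ^ (i + 1) = 4 * 4 ^ i := pow_succ' 4 i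
    have hp2 : 2 ^ (i + 1) = 2 * 2 ^ i := pow_succ' 2 i
    have h1 : (k + 4 * 4 ^ (i + 1)) / 4 = k / 4 + 4 * 4 ^ i := by omega
    have h2 : (k + 4 * 4 ^ (i + 1)) % 4 = k % 4 := by omega
    rw [h1, h2] at e3
    rw [h1] at e4
    rw [e2, half_pow _ _ _ (by omega)] at h
    have h3 := ih (k / 4) h
    unfold ht at h3 ⊢
    omega

/-- Summary: adding a bit of type 3. -/
lemma add_odd (i k : ℕ) :
    (n3 (k + 2 * 4 ^ i) = n3 k + 2 ^ i ∧ n5 (k + 2 * 4 ^ i) = n5 k) ∨ ht (k + 2 * 4 ^ i) ≤ ht k := by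
  rcases Nat.mod_two_eq_zero_or_one (n3 k / 2 ^ i) with h | h
  · exact Or.inl (add_odd0 i k h)
  · exact Or.inr (add_odd1 i k h)

/-- Summary: adding a bit of type 5. -/
lemma add_even (i k : ℕ) :
    (n3 (k + 4 * 4 ^ i) = n3 k ∧ n5 (k + 4 * 4 ^ i) = n5 k + 2 ^ i) ∨
    (ht (k + 4 * 4 ^ i) = ht k + 2 ^ i ∧ n5 (k + 4 * 4 ^ i) + 2 ^ i = n5 k) ∨
      ht (k + 4 * 4 ^ i) + 2 ^ i ≤ ht k := by
  rcases Nat.mod_two_eq_zero_or_one (n5 k / 2 ^ i) with h | h
  · exact Or.inl (add_even0 i k h)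
  · exact Or.inr (add_even1 i k h)

/-- bounds -/
lemma n3_n5_lt (i : ℕ) : ∀ k : ℕ, (k < 2 * 4 ^ i → n3 k < 2 ^ i ∧ n5 k < 2 ^ i) := by
  induction i with
  | zero =>
    intro k hk
    have : k = 0 ∨ k = 1 := by omega
    rcases this with rfl | rfl <;> simp [n3, n5]
  | succ i ih =>
    intro k hk
    have e1 := n3_eq k
    have e2 := n5_eq k
    have hp : 4 ^ (i + 1) = 4 * 4 ^ i := pow_succ' 4 i
    have hp2 : 2 ^ (i + 1) = 2 * 2 ^ i := pow_succ' 2 i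
    have := ih (k / 4) (by omega)
    omega

lemma n3_n5_lt' (i : ℕ) : ∀ k : ℕ, (k < 4 * 4 ^ i → n3 k < 2 * 2 ^ i ∧ n5 k < 2 ^ i) := by
  induction i with
  | zero =>
    intro k hk
    have e1 := n3_eq k
    have e2 := n5_eq k
    rw [show k / 4 = 0 by omega] at e1 e2
    simp [n3, n5] at e1 e2
    unfold n3 n5
    omega
  | succ i ih =>
    intro k hk
    have e1 := n3_eq k
    have e2 := n5_eq k
    have hp : 4 ^ (i + 1) = 4 * 4 ^ i := pow_succ' 4 i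
    have hp2 : 2 ^ (i + 1) = 2 * 2 ^ i := pow_succ' 2 i
    have := ih (k / 4) (by omega)
    omega

end Pool.Agent.helper79.PO
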